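import Pool.Agent.H14R2.RC.Defs2
import Pool.Agent.H911R2.RC.AMP2

/-! Task AMP3 of the project RC2 (helper14): iterated amplification with threshold `1/(2R)`.
Adapted from `Pool.Agent.H911R2.RC.AMP2` (helper911). -/

namespace RC14
open scoped InnerProductSpace
open Finset

variable {G : Type*} [Group G] [Fintype G]
variable {V : Type*} [NormedAddCommGroup V] [InnerProductSpace ℂ V] [FiniteDimensional ℂ V]

namespace AMP3

open AMP2 (sum_pow_list proj_inner proj_pyth proj_zero ind ind_pos ind_neg ind_nonneg ind_le_one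
  ind_mono card_eq_sum)

/-- the combinatorial estimate: words of length `m` in `q` letters weighted by the size of
their range -/
theorem sum_words_le (q m : ℕ) (hq : 1 ≤ q) (t : ℝ) (ht0 : 0 < t) (Λ : ℝ)
    (hm : (m : ℝ) ≤ t * Λ * q / 2) :
    ∑ s : Fin m → Fin q, (1 / (q : ℝ)) ^ m *
      Real.exp (-(Λ * (List.ofFn s).toFinset.card) / 2) ≤
      2 ^ q * (t ^ m * Real.exp (-(m : ℝ))) := by
  classical
  have hq0 : (0 : ℝ) < q := by exact_mod_cast hq
  have h1 : ∀ s : Fin m → Fin q, (1 / (q : ℝ)) ^ m *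
      Real.exp (-(Λ * (List.ofFn s).toFinset.card) / 2) ≤
      ∑ A : Finset (Fin q), if (∀ i, s i ∈ A) then
        (1 / (q : ℝ)) ^ m * Real.exp (-(Λ * A.card) / 2) else 0 := by
    intro s
    have h2 : ∀ i, s i ∈ (List.ofFn s).toFinset := by
      intro i
      simp
    have h3 := Finset.single_le_sum (f := fun A : Finset (Fin q) => if (∀ i, s i ∈ A) then
        (1 / (q : ℝ)) ^ m * Real.exp (-(Λ * A.card) / 2) else 0) (s := Finset.univ)
        (fun A _ => by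
          split_ifs
          · positivity
          · exact le_rfl) (Finset.mem_univ (List.ofFn s).toFinset)
    rw [if_pos h2] at h3
    exact h3
  refine (Finset.sum_le_sum fun s _ => h1 s).trans ?_
  rw [Finset.sum_comm]
  have h4 : ∀ A : Finset (Fin q), ∑ s : Fin m → Fin q, (if (∀ i, s i ∈ A) then
        (1 / (q : ℝ)) ^ m * Real.exp (-(Λ * A.card) / 2) else 0) ≤
        t ^ m * Real.exp (-(m : ℝ)) := by
    intro A
    rw [← Finset.sum_filter, Finset.sum_const, nsmul_eq_mul]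
    have h5 : (Finset.univ.filter fun s : Fin m → Fin q => ∀ i, s i ∈ A).card = A.card ^ m := by
      have h6 : (Finset.univ.filter fun s : Fin m → Fin q => ∀ i, s i ∈ A) =
          Fintype.piFinset fun _ => A := by
        ext s
        simp
      rw [h6, Fintype.card_piFinset]
      simp
    rw [h5]
    push_cast
    rw [← mul_assoc, ← mul_pow]
    have h7 : (A.card : ℝ) * (1 / (q : ℝ)) ≤ t * Real.exp (A.card / (t * q) - 1) := by
      have := Real.add_one_le_exp ((A.card : ℝ) / (t * q) - 1)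
      calc (A.card : ℝ) * (1 / (q : ℝ)) = t * ((A.card : ℝ) / (t * q) - 1 + 1) := by
            field_simp
            ring
        _ ≤ _ := by gcongr
    have h8 : ((A.card : ℝ) * (1 / (q : ℝ))) ^ m ≤
        t ^ m * Real.exp (m * (A.card / (t * q) - 1)) := by
      rw [Real.exp_nat_mul, ← mul_pow]
      exact pow_le_pow_left₀ (by positivity) h7 m
    have h9 : (m : ℝ) * (A.card / (t * q) - 1) + -(Λ * A.card) / 2 ≤ -(m : ℝ) := by
      have h10 : (m : ℝ) * (A.card / (t * q)) ≤ (t * Λ * q / 2) * (A.card / (t * q)) := by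
        gcongr
      have h11 : (t * Λ * q / 2) * ((A.card : ℝ) / (t * q)) = Λ * A.card / 2 := by
        field_simp
      nlinarith
    calc ((A.card : ℝ) * (1 / (q : ℝ))) ^ m * Real.exp (-(Λ * A.card) / 2) ≤
        t ^ m * Real.exp (m * (A.card / (t * q) - 1)) * Real.exp (-(Λ * A.card) / 2) := by gcongr
      _ = t ^ m * Real.exp (m * (A.card / (t * q) - 1) + -(Λ * A.card) / 2) := by
        rw [Real.exp_add, mul_assoc]
      _ ≤ _ := by
        gcongr
  refine (Finset.sum_le_sum fun A _ => h4 A).trans ?_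
  simp

/-- one step of the iteration: `m` is free with `m ≤ t Λ q / 2`. -/
theorem STEP (ρ : G →* (V ≃ₗᵢ[ℂ] V)) (hirr : Irr ρ ⊤) (E : Module.End ℂ V)
    (hE : SymIdem E) (t : ℝ) (ht0 : 0 < t) (ht1 : t < 1) (q : ℕ) (hq : 1 ≤ q) (Λ : ℝ)
    (hτ : rtr E ≤ Real.exp (-Λ) * Module.finrank ℂ V) (m : ℕ) (hm : (m : ℝ) ≤ t * Λ * q / 2) :
    ∃ E' : (Fin q → G) → Module.End ℂ V, (∀ z, SymIdem (E' z)) ∧
      (∀ z v, (1 - t) * ‖v - E' z v‖ ^ 2 ≤ (1 / q : ℝ) * ∑ j, ‖v - cj ρ E (z j) v‖ ^ 2) ∧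
      ∑ z, rtr (E' z) ≤ (Fintype.card G : ℝ) ^ q * Module.finrank ℂ V * 4 ^ q *
        Real.exp (-2) ^ m := by
  classical
  have hq0 : (0 : ℝ) < q := by exact_mod_cast hq
  have hqC : (q : ℂ) ≠ 0 := by exact_mod_cast hq0.ne'
  have hnt : Nontrivial V := by
    rcases subsingleton_or_nontrivial V with h | h
    · exfalso
      apply hirr.1
      exact Subsingleton.elim _ _
    · exact h
  have hd : (0:ℝ) < Module.finrank ℂ V := by
    exact_mod_cast Module.finrank_pos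
  set d : ℝ := (Module.finrank ℂ V : ℝ) with hdd
  let M : (Fin q → G) → Module.End ℂ V := fun z => (1 / q : ℂ) • ∑ j, cj ρ E (z j)
  have hMsym : ∀ z, (M z).IsSymmetric := by
    intro z v w
    have hc : (starRingEnd ℂ) (1 / q : ℂ) = 1 / q := by
      have h : (1 / q : ℂ) = ((1 / q : ℝ) : ℂ) := by push_cast; rfl
      rw [h, Complex.conj_ofReal]
    simp only [M, LinearMap.smul_apply, LinearMap.sum_apply]
    rw [inner_smul_left, inner_smul_right, sum_inner, inner_sum, hc]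
    congr 1
    exact Finset.sum_congr rfl fun j _ => (cj_proj ρ E hE (z j)).1 v w
  have hMin : ∀ z v, (⟪M z v, v⟫_ℂ).re = ‖v‖ ^ 2 - (1 / q : ℝ) * ∑ j, ‖v - cj ρ E (z j) v‖ ^ 2 := by
    intro z v
    have h1 : (⟪M z v, v⟫_ℂ).re = (1 / q : ℝ) * ∑ j, (⟪cj ρ E (z j) v, v⟫_ℂ).re := by
      simp only [M, LinearMap.smul_apply, LinearMap.sum_apply]
      have hc : (starRingEnd ℂ) (1 / q : ℂ) = ((1 / q : ℝ) : ℂ) := by
        have h : (1 / q : ℂ) = ((1 / q : ℝ) : ℂ) := by push_cast; rfl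
        rw [h, Complex.conj_ofReal]
      rw [inner_smul_left, sum_inner, hc, Complex.re_ofReal_mul, Complex.re_sum]
    rw [h1]
    have h2 : ∀ j, (⟪cj ρ E (z j) v, v⟫_ℂ).re = ‖v‖ ^ 2 - ‖v - cj ρ E (z j) v‖ ^ 2 := by
      intro j
      rw [proj_pyth _ (cj_proj ρ E hE (z j)) v]
      ring
    rw [Finset.sum_congr rfl fun j _ => h2 j, Finset.sum_sub_distrib]
    simp
    field_simp
  have hspec : ∀ z, ∃ E' : Module.End ℂ V, SymIdem E' ∧
      (∀ L : ℕ, t ^ (2 * L) * rtr E' ≤ rtr (M z ^ (2 * L))) ∧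
      ∀ v, (1 - t) * ‖v - E' v‖ ^ 2 ≤ ‖v‖ ^ 2 - (⟪M z v, v⟫_ℂ).re := by
    intro z
    refine SPEC (M z) (hMsym z) ?_ t ht0 ht1
    intro v
    rw [hMin]
    have : 0 ≤ (1 / q : ℝ) * ∑ j, ‖v - cj ρ E (z j) v‖ ^ 2 := by positivity
    linarith
  choose E' hE' htr hgap using hspec
  refine ⟨E', hE', ?_, ?_⟩
  · intro z v
    have h1 := hgap z v
    rw [hMin] at h1
    linarith
  · -- the trace bound
    have hE0 : 0 ≤ rtr E := by
      rw [← (hs_proj E hE).1]
      exact hs_nonneg E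
    have hτ1 : rtr E / d ≤ Real.exp (-Λ) := by
      rw [div_le_iff₀ hd]
      exact hτ
    have hτ0 : 0 ≤ rtr E / d := by positivity
    set N : ℝ := (Fintype.card G : ℝ) ^ q * d with hN
    have hN0 : 0 ≤ N := by positivity
    have h1 : ∀ z, rtr (E' z) ≤ (t⁻¹ ^ 2) ^ m * hs (M z ^ m) := by
      intro z
      have h2 := htr z m
      have h3 : hs (M z ^ m) = rtr (M z ^ (2 * m)) := by
        unfold hs
        congr 1
        have h4 : LinearMap.adjoint (M z ^ m) = M z ^ m := by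
          have h5 : IsSelfAdjoint (M z) := (LinearMap.isSymmetric_iff_isSelfAdjoint _).1 (hMsym z)
          have h6 := h5.pow m
          exact h6
        rw [h4, ← pow_add]
        congr 1
        ring
      rw [h3]
      have h4 : (t⁻¹ ^ 2) ^ m * (t ^ (2 * m) * rtr (E' z)) = rtr (E' z) := by
        rw [← mul_assoc, pow_mul, ← mul_pow, ← mul_pow, inv_mul_cancel₀ ht0.ne']
        norm_num
      calc rtr (E' z) = (t⁻¹ ^ 2) ^ m * (t ^ (2 * m) * rtr (E' z)) := h4.symm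
        _ ≤ _ := by gcongr
    have h2 : Real.sqrt (∑ z, hs (M z ^ m)) ≤
        Real.sqrt N * (2 ^ q * (t ^ m * Real.exp (-(m : ℝ)))) := by
      have h3 : ∀ z, M z ^ m = ∑ s : Fin m → Fin q,
          ((1 / q : ℂ) ^ m) • ((List.ofFn s).map fun i => cj ρ E (z i)).prod := by
        intro z
        simp only [M]
        rw [smul_pow, sum_pow_list, Finset.smul_sum]
      have h4 : ∑ z, hs (M z ^ m) = ∑ z : Fin q → G, hs (∑ s : Fin m → Fin q,
          ((1 / q : ℂ) ^ m) • ((List.ofFn s).map fun i => cj ρ E (z i)).prod) :=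
        Finset.sum_congr rfl fun z _ => by rw [h3 z]
      rw [h4]
      refine (sqrt_hs_sum_le (fun (s : Fin m → Fin q) (z : Fin q → G) =>
        ((1 / q : ℂ) ^ m) • ((List.ofFn s).map fun i => cj ρ E (z i)).prod)).trans ?_
      have h5 : ∀ s : Fin m → Fin q, Real.sqrt (∑ z : Fin q → G,
          hs (((1 / q : ℂ) ^ m) • ((List.ofFn s).map fun i => cj ρ E (z i)).prod)) ≤
          Real.sqrt N * ((1 / (q : ℝ)) ^ m *
            Real.exp (-(Λ * (List.ofFn s).toFinset.card) / 2)) := by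
        intro s
        have h6 : ∑ z : Fin q → G,
          hs (((1 / q : ℂ) ^ m) • ((List.ofFn s).map fun i => cj ρ E (z i)).prod) ≤
            N * ((1 / (q : ℝ)) ^ m *
              Real.exp (-(Λ * (List.ofFn s).toFinset.card) / 2)) ^ 2 := by
          have h7 : ∀ z : Fin q → G,
              hs (((1 / q : ℂ) ^ m) • ((List.ofFn s).map fun i => cj ρ E (z i)).prod) =
              ((1 / (q : ℝ)) ^ m) ^ 2 * hs (((List.ofFn s).map fun i => cj ρ E (z i)).prod) := by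
            intro z
            rw [hs_smul]
            congr 2
            rw [norm_pow, norm_div, norm_one, Complex.norm_natCast]
          rw [Finset.sum_congr rfl fun z _ => h7 z, ← Finset.mul_sum]
          have h8 := PEEL ρ hirr E hE q (List.ofFn s)
          have h9 : (rtr E / d) ^ (List.ofFn s).toFinset.card ≤
              Real.exp (-(Λ * (List.ofFn s).toFinset.card) / 2) ^ 2 := by
            calc (rtr E / d) ^ (List.ofFn s).toFinset.card ≤
                Real.exp (-Λ) ^ (List.ofFn s).toFinset.card := pow_le_pow_left₀ hτ0 hτ1 _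
              _ = Real.exp ((List.ofFn s).toFinset.card * (-Λ)) := (Real.exp_nat_mul _ _).symm
              _ = Real.exp ((2 : ℕ) * (-(Λ * (List.ofFn s).toFinset.card) / 2)) := by
                congr 1
                push_cast
                ring
              _ = _ := Real.exp_nat_mul _ _
          calc ((1 / (q : ℝ)) ^ m) ^ 2 *
                ∑ z : Fin q → G, hs (((List.ofFn s).map fun i => cj ρ E (z i)).prod) ≤
                ((1 / (q : ℝ)) ^ m) ^ 2 * (N * (rtr E / d) ^ (List.ofFn s).toFinset.card) := by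
                  gcongr
            _ ≤ ((1 / (q : ℝ)) ^ m) ^ 2 *
                (N * Real.exp (-(Λ * (List.ofFn s).toFinset.card) / 2) ^ 2) := by gcongr
            _ = _ := by ring
        calc Real.sqrt _ ≤ Real.sqrt (N * ((1 / (q : ℝ)) ^ m *
              Real.exp (-(Λ * (List.ofFn s).toFinset.card) / 2)) ^ 2) := Real.sqrt_le_sqrt h6
          _ = _ := by
            rw [Real.sqrt_mul hN0, Real.sqrt_sq (by positivity)]
      calc _ ≤ ∑ s : Fin m → Fin q, Real.sqrt N * ((1 / (q : ℝ)) ^ m *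
            Real.exp (-(Λ * (List.ofFn s).toFinset.card) / 2)) :=
            Finset.sum_le_sum fun s _ => h5 s
        _ = Real.sqrt N * ∑ s : Fin m → Fin q, ((1 / (q : ℝ)) ^ m *
            Real.exp (-(Λ * (List.ofFn s).toFinset.card) / 2)) := by rw [Finset.mul_sum]
        _ ≤ _ := by
          gcongr
          exact sum_words_le q m hq t ht0 Λ hm
    have h3 : ∑ z, hs (M z ^ m) ≤ N * (2 ^ q * (t ^ m * Real.exp (-(m : ℝ)))) ^ 2 := by
      have h4 : 0 ≤ ∑ z, hs (M z ^ m) := Finset.sum_nonneg fun z _ => hs_nonneg _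
      calc ∑ z, hs (M z ^ m) = (Real.sqrt (∑ z, hs (M z ^ m))) ^ 2 := (Real.sq_sqrt h4).symm
        _ ≤ (Real.sqrt N * (2 ^ q * (t ^ m * Real.exp (-(m : ℝ))))) ^ 2 := by gcongr
        _ = _ := by rw [mul_pow, Real.sq_sqrt hN0]
    calc ∑ z, rtr (E' z) ≤ ∑ z, (t⁻¹ ^ 2) ^ m * hs (M z ^ m) := Finset.sum_le_sum fun z _ => h1 z
      _ = (t⁻¹ ^ 2) ^ m * ∑ z, hs (M z ^ m) := by rw [Finset.mul_sum]
      _ ≤ (t⁻¹ ^ 2) ^ m * (N * (2 ^ q * (t ^ m * Real.exp (-(m : ℝ)))) ^ 2) := by gcongr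
      _ = N * 4 ^ q * Real.exp (-2) ^ m := by
        have h5 : Real.exp (-(m : ℝ)) ^ 2 = Real.exp (-2) ^ m := by
          rw [← Real.exp_nat_mul, ← Real.exp_nat_mul]
          congr 1
          push_cast
          ring
        have h6 : ((2 : ℝ) ^ q) ^ 2 = 4 ^ q := by
          rw [← pow_mul, mul_comm, pow_mul]
          norm_num
        have h7 : (t⁻¹ ^ 2) ^ m * (t ^ m) ^ 2 = 1 := by
          rw [← pow_mul t m 2, mul_comm m 2, pow_mul, ← mul_pow, ← mul_pow,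
            inv_mul_cancel₀ ht0.ne']
          norm_num
        rw [mul_pow, mul_pow, h5, h6]
        calc (t⁻¹ ^ 2) ^ m * (N * (4 ^ q * ((t ^ m) ^ 2 * Real.exp (-2) ^ m))) =
            ((t⁻¹ ^ 2) ^ m * (t ^ m) ^ 2) * (N * 4 ^ q * Real.exp (-2) ^ m) := by ring
          _ = _ := by rw [h7, one_mul]

omit [Fintype G] [FiniteDimensional ℂ V] in
/-- comparison of the conjugate projections with the energy -/
theorem step_energy (ρ : G →* (V ≃ₗᵢ[ℂ] V)) (E0 E' : Module.End ℂ V) (hE0 : SymIdem E0)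
    (t : ℝ) (ht0 : 0 < t) (ht1 : t ≤ 1 / 2) (q : ℕ) (hq : 1 ≤ q) (z : Fin q → G) (v : V)
    (h : (1 - t) * ‖v - E' v‖ ^ 2 ≤ (1 / q : ℝ) * ∑ j, ‖v - cj ρ E0 (z j) v‖ ^ 2) :
    ‖v - E' v‖ ^ 2 ≤ (1 + 4 * t) * ‖v - E0 v‖ ^ 2 + 3 / t * (1 / (q : ℝ)) * En ρ z v := by
  have hq0 : (0 : ℝ) < q := by exact_mod_cast hq
  have h1 : ∀ j, ‖v - cj ρ E0 (z j) v‖ ^ 2 ≤
      (1 + t) * ‖v - E0 v‖ ^ 2 + (1 + t) / t * ‖ρ (z j) v - v‖ ^ 2 := by
    intro j
    have h2 := AMP1.cj_dist ρ E0 hE0 (z j) v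
    rw [norm_sub_rev] at h2
    have h3 : ‖v - cj ρ E0 (z j) v‖ ^ 2 ≤ (‖v - E0 v‖ + ‖ρ (z j) v - v‖) ^ 2 := by gcongr
    refine h3.trans ?_
    set a := ‖v - E0 v‖
    set b := ‖ρ (z j) v - v‖
    have h4 : (1 + t) * a ^ 2 + (1 + t) / t * b ^ 2 - (a + b) ^ 2 = (t * a - b) ^ 2 / t := by
      field_simp
      ring
    have h5 : 0 ≤ (t * a - b) ^ 2 / t := by positivity
    linarith
  have h2 : (1 / q : ℝ) * ∑ j, ‖v - cj ρ E0 (z j) v‖ ^ 2 ≤
      (1 + t) * ‖v - E0 v‖ ^ 2 + (1 + t) / t * (1 / (q : ℝ)) * En ρ z v := by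
    calc (1 / q : ℝ) * ∑ j, ‖v - cj ρ E0 (z j) v‖ ^ 2 ≤
      (1 / q : ℝ) * ∑ j, ((1 + t) * ‖v - E0 v‖ ^ 2 + (1 + t) / t * ‖ρ (z j) v - v‖ ^ 2) := by
          gcongr with j _
          exact h1 j
    _ = _ := by
      rw [Finset.sum_add_distrib, ← Finset.mul_sum, ← Finset.mul_sum, Finset.sum_const,
        Finset.card_univ, Fintype.card_fin, nsmul_eq_mul]
      unfold En
      generalize ∑ i, ‖(ρ (z i)) v - v‖ ^ 2 = S
      field_simp
  have h3 := h.trans h2
  have hEn : 0 ≤ En ρ z v := AMP1.En_nonneg ρ z v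
  have h4 : (1 + t) ≤ (1 - t) * (1 + 4 * t) := by nlinarith
  have h5 : (1 + t) / t ≤ (1 - t) * (3 / t) := by
    rw [← mul_div_assoc]
    apply div_le_div_of_nonneg_right _ ht0.le
    linarith
  have h6 : (1 - t) * ‖v - E' v‖ ^ 2 ≤
      (1 - t) * ((1 + 4 * t) * ‖v - E0 v‖ ^ 2 + 3 / t * (1 / (q : ℝ)) * En ρ z v) := by
    refine h3.trans ?_
    have h7 : (1 + t) * ‖v - E0 v‖ ^ 2 ≤ (1 - t) * (1 + 4 * t) * ‖v - E0 v‖ ^ 2 := by gcongr
    have h8 : (1 + t) / t * (1 / (q : ℝ)) * En ρ z v ≤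
        (1 - t) * (3 / t) * (1 / (q : ℝ)) * En ρ z v := by gcongr
    linarith
  exact le_of_mul_le_mul_left h6 (by linarith)

theorem num1 (q m : ℕ) (hq : 8 ≤ q) (t Λ : ℝ) (hΛ : 4 ≤ t * Λ) (hm : t * Λ * q / 2 - 1 ≤ m) :
    (4 : ℝ) ^ q * Real.exp (-2) ^ m * Real.exp (Λ * (t * q / 4)) ≤
      Real.exp (-(Λ * (t * q / 4))) := by
  have hq8 : (8 : ℝ) ≤ q := by exact_mod_cast hq
  have h4 : (4 : ℝ) ≤ Real.exp (1.3864) := by
    have h := Real.log_two_lt_d9
    have h1 : (4 : ℝ) = Real.exp (2 * Real.log 2) := by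
      rw [mul_comm, Real.exp_mul, Real.exp_log (by norm_num)]
      norm_num
    rw [h1]
    exact Real.exp_le_exp.2 (by linarith)
  have h5 : (4 : ℝ) ^ q ≤ Real.exp (q * 1.3864) := by
    rw [Real.exp_nat_mul]
    exact pow_le_pow_left₀ (by norm_num) h4 q
  calc (4 : ℝ) ^ q * Real.exp (-2) ^ m * Real.exp (Λ * (t * q / 4)) ≤
      Real.exp (q * 1.3864) * Real.exp (-2) ^ m * Real.exp (Λ * (t * q / 4)) := by gcongr
    _ = Real.exp (q * 1.3864 + m * (-2) + Λ * (t * q / 4)) := by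
      rw [← Real.exp_nat_mul, ← Real.exp_add, ← Real.exp_add]
    _ ≤ _ := by
      apply Real.exp_le_exp.2
      nlinarith [mul_nonneg (sub_nonneg.2 hΛ) (by linarith : (0 : ℝ) ≤ q - 8)]

theorem ITER (ρ : G →* (V ≃ₗᵢ[ℂ] V)) (hirr : Irr ρ ⊤) (t : ℝ) (ht0 : 0 < t) (ht1 : t ≤ 1 / 2)
    (q : ℕ) (hq : 8 ≤ q) (hA : 1 ≤ t * q / 4) (R : ℕ) :
    ∀ (E0 : Module.End ℂ V), SymIdem E0 → ∀ Λ : ℝ, 4 ≤ t * Λ →
      rtr E0 ≤ Real.exp (-Λ) * Module.finrank ℂ V →
      (Module.finrank ℂ V : ℝ) < Real.exp (Λ * (t * q / 4) ^ R) →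
      (Nat.card {z : Fin R → Fin q → G // ¬ ∀ v : V,
        ‖v‖ ^ 2 ≤ (1 + 4 * t) ^ R *
          (‖v - E0 v‖ ^ 2 + 3 / t * (1 / (q : ℝ)) * ∑ r, En ρ (z r) v)} : ℝ) ≤
      R * Real.exp (-(Λ * (t * q / 4))) * (Fintype.card G : ℝ) ^ (R * q) := by
  classical
  have hq8 : (8 : ℝ) ≤ q := by exact_mod_cast hq
  have hq0 : (0 : ℝ) < q := by linarith
  have hnt : Nontrivial V := by
    rcases subsingleton_or_nontrivial V with h | h
    · exfalso
      apply hirr.1
      exact Subsingleton.elim _ _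
    · exact h
  have hd : (0:ℝ) < Module.finrank ℂ V := by
    exact_mod_cast Module.finrank_pos
  set d : ℝ := (Module.finrank ℂ V : ℝ) with hdd
  induction R with
  | zero =>
    intro E0 hE0 Λ hΛ hτ hdΛ
    have h1 : rtr E0 < 1 := by
      rw [pow_zero, mul_one] at hdΛ
      calc rtr E0 ≤ Real.exp (-Λ) * d := hτ
        _ < Real.exp (-Λ) * Real.exp Λ := by gcongr
        _ = 1 := by rw [← Real.exp_add]; simp
    have h2 := proj_zero E0 hE0 h1
    have h3 : ∀ z : Fin 0 → Fin q → G, ∀ v : V, ‖v‖ ^ 2 ≤ (1 + 4 * t) ^ 0 *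
          (‖v - E0 v‖ ^ 2 + 3 / t * (1 / (q : ℝ)) *
            ∑ r, En ρ (z r) v) := by
      intro z v
      rw [h2]
      simp
    have h4 : IsEmpty {z : Fin 0 → Fin q → G // ¬ ∀ v : V, ‖v‖ ^ 2 ≤ (1 + 4 * t) ^ 0 *
          (‖v - E0 v‖ ^ 2 + 3 / t * (1 / (q : ℝ)) *
            ∑ r, En ρ (z r) v)} := ⟨fun z => z.2 (h3 z.1)⟩
    rw [Nat.card_of_isEmpty]
    simp
  | succ R ih =>
    intro E0 hE0 Λ hΛ hτ hdΛ
    have hΛ0 : 0 < Λ := by
      by_contra hcon
      nlinarith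
    set m : ℕ := ⌊t * Λ * q / 2⌋₊ with hm
    have hm1 : (m : ℝ) ≤ t * Λ * q / 2 := Nat.floor_le (by positivity)
    have hm2 : t * Λ * q / 2 - 1 ≤ m := by
      have := Nat.lt_floor_add_one (t * Λ * q / 2)
      linarith
    obtain ⟨E', hE', hgap, htr⟩ := STEP ρ hirr E0 hE0 t ht0 (by linarith) q (by omega) Λ hτ m hm1
    rw [← hdd] at htr
    set Λ' : ℝ := Λ * (t * q / 4) with hΛ'
    have hΛΛ' : Λ ≤ Λ' := by
      rw [hΛ']
      exact le_mul_of_one_le_right hΛ0.le hA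
    have hΛ'70 : 4 ≤ t * Λ' := hΛ.trans (by gcongr)
    have hd' : d < Real.exp (Λ' * (t * q / 4) ^ R) := by
      refine hdΛ.trans_le (Real.exp_le_exp.2 (le_of_eq ?_))
      rw [hΛ']
      ring
    set Q : ℝ := (Fintype.card G : ℝ) ^ (R * q) with hQ
    have hG : (0 : ℝ) < Fintype.card G := by exact_mod_cast Fintype.card_pos
    have hQ0 : 0 < Q := by positivity
    -- the first bad event
    have hbad0 : ∑ z0 : Fin q → G, ind (Real.exp (-Λ') * d < rtr (E' z0)) ≤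
        (Fintype.card G : ℝ) ^ q * Real.exp (-Λ') := by
      have h1 : ∀ z0 : Fin q → G, ind (Real.exp (-Λ') * d < rtr (E' z0)) ≤
          rtr (E' z0) * (Real.exp Λ' / d) := by
        intro z0
        by_cases h : Real.exp (-Λ') * d < rtr (E' z0)
        · rw [ind_pos h]
          have h2 : Real.exp (-Λ') * d * (Real.exp Λ' / d) = 1 := by
            have : Real.exp (-Λ') * Real.exp Λ' = 1 := by rw [← Real.exp_add]; simp
            field_simp
            exact this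
          calc (1 : ℝ) = Real.exp (-Λ') * d * (Real.exp Λ' / d) := h2.symm
            _ ≤ _ := by gcongr
        · rw [ind_neg h]
          have h2 : 0 ≤ rtr (E' z0) := by
            rw [← (hs_proj _ (hE' z0)).1]
            exact hs_nonneg _
          positivity
      calc _ ≤ ∑ z0 : Fin q → G, rtr (E' z0) * (Real.exp Λ' / d) :=
            Finset.sum_le_sum fun z0 _ => h1 z0
        _ = (∑ z0 : Fin q → G, rtr (E' z0)) * (Real.exp Λ' / d) := by rw [Finset.sum_mul]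
        _ ≤ ((Fintype.card G : ℝ) ^ q * d * 4 ^ q * Real.exp (-2) ^ m) *
              (Real.exp Λ' / d) := by gcongr
        _ = (Fintype.card G : ℝ) ^ q *
              ((4 : ℝ) ^ q * Real.exp (-2) ^ m * Real.exp (Λ * (t * q / 4))) := by
          rw [← hΛ']
          field_simp
        _ ≤ _ := by
          gcongr
          exact num1 q m hq t Λ hΛ hm2
    -- transfer
    have htrans : ∀ (z0 : Fin q → G) (z' : Fin R → Fin q → G),
        (∀ v : V, ‖v‖ ^ 2 ≤ (1 + 4 * t) ^ R *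
          (‖v - E' z0 v‖ ^ 2 + 3 / t * (1 / (q : ℝ)) *
            ∑ r, En ρ (z' r) v)) →
        ∀ v : V, ‖v‖ ^ 2 ≤ (1 + 4 * t) ^ (R + 1) *
          (‖v - E0 v‖ ^ 2 + 3 / t * (1 / (q : ℝ)) *
            ∑ r : Fin (R + 1), En ρ ((Fin.cons z0 z' : Fin (R + 1) → Fin q → G) r) v) := by
      intro z0 z' h v
      have h1 := h v
      have h2 := step_energy ρ E0 (E' z0) hE0 t ht0 ht1 q (by omega) z0 v (hgap z0 v)
      rw [Fin.sum_univ_succ]
      simp only [Fin.cons_zero, Fin.cons_succ]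
      set S := ∑ r, En ρ (z' r) v with hS
      have hS0 : 0 ≤ S := Finset.sum_nonneg fun r _ => AMP1.En_nonneg ρ (z' r) v
      set c := 3 / t * (1 / (q : ℝ)) with hc
      have hc0 : 0 ≤ c := by positivity
      have h3 : c * S ≤ (1 + 4 * t) * (c * S) :=
        le_mul_of_one_le_left (by positivity) (by linarith)
      have hEn : 0 ≤ En ρ z0 v := AMP1.En_nonneg ρ z0 v
      have h4 : c * En ρ z0 v ≤ (1 + 4 * t) * (c * En ρ z0 v) :=
        le_mul_of_one_le_left (by positivity) (by linarith)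
      calc ‖v‖ ^ 2 ≤ (1 + 4 * t) ^ R * (‖v - E' z0 v‖ ^ 2 + c * S) := h1
        _ ≤ (1 + 4 * t) ^ R * ((1 + 4 * t) * (‖v - E0 v‖ ^ 2 + c * (En ρ z0 v + S))) := by
          gcongr
          nlinarith
        _ = _ := by ring
    rw [card_eq_sum]
    have hsplit : ∑ z : Fin (R + 1) → Fin q → G, ind (¬ ∀ v : V,
        ‖v‖ ^ 2 ≤ (1 + 4 * t) ^ (R + 1) *
          (‖v - E0 v‖ ^ 2 + 3 / t * (1 / (q : ℝ)) *
            ∑ r, En ρ (z r) v)) =
        ∑ z0 : Fin q → G, ∑ z' : Fin R → Fin q → G, ind (¬ ∀ v : V,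
        ‖v‖ ^ 2 ≤ (1 + 4 * t) ^ (R + 1) *
          (‖v - E0 v‖ ^ 2 + 3 / t * (1 / (q : ℝ)) *
            ∑ r : Fin (R + 1), En ρ ((Fin.cons z0 z' : Fin (R + 1) → Fin q → G) r) v)) := by
      rw [← Fintype.sum_prod_type']
      symm
      refine Fintype.sum_equiv (Fin.consEquiv fun _ => Fin q → G) _ _ ?_
      rintro ⟨z0, z'⟩
      rfl
    rw [hsplit]
    have hinner : ∀ z0 : Fin q → G, ∑ z' : Fin R → Fin q → G, ind (¬ ∀ v : V,
        ‖v‖ ^ 2 ≤ (1 + 4 * t) ^ (R + 1) *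
          (‖v - E0 v‖ ^ 2 + 3 / t * (1 / (q : ℝ)) *
            ∑ r : Fin (R + 1), En ρ ((Fin.cons z0 z' : Fin (R + 1) → Fin q → G) r) v)) ≤
        ind (Real.exp (-Λ') * d < rtr (E' z0)) * Q +
          R * Real.exp (-Λ') * Q := by
      intro z0
      by_cases h : Real.exp (-Λ') * d < rtr (E' z0)
      · rw [ind_pos h]
        have h1 : 0 ≤ R * Real.exp (-Λ') * Q := by positivity
        have h2 : ∑ z' : Fin R → Fin q → G, ind (¬ ∀ v : V,
        ‖v‖ ^ 2 ≤ (1 + 4 * t) ^ (R + 1) *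
          (‖v - E0 v‖ ^ 2 + 3 / t * (1 / (q : ℝ)) *
            ∑ r : Fin (R + 1), En ρ ((Fin.cons z0 z' : Fin (R + 1) → Fin q → G) r) v)) ≤ ∑ z' : Fin R → Fin q → G, (1 : ℝ) := by
          exact Finset.sum_le_sum fun z' _ => ind_le_one _
        have h3 : ∑ z' : Fin R → Fin q → G, (1 : ℝ) = Q := by
          rw [Finset.sum_const, Finset.card_univ, Fintype.card_fun, Fintype.card_fun,
            Fintype.card_fin, Fintype.card_fin, hQ]
          push_cast
          rw [nsmul_eq_mul, mul_one]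
          push_cast
          rw [← pow_mul, mul_comm]
        linarith
      · rw [ind_neg h, zero_mul, zero_add]
        have h1 := ih (E' z0) (hE' z0) Λ' hΛ'70 (not_lt.1 h) hd'
        rw [card_eq_sum] at h1
        have h2 : ∑ z' : Fin R → Fin q → G, ind (¬ ∀ v : V,
        ‖v‖ ^ 2 ≤ (1 + 4 * t) ^ (R + 1) *
          (‖v - E0 v‖ ^ 2 + 3 / t * (1 / (q : ℝ)) *
            ∑ r : Fin (R + 1), En ρ ((Fin.cons z0 z' : Fin (R + 1) → Fin q → G) r) v)) ≤ ∑ z' : Fin R → Fin q → G, ind (¬ ∀ v : V,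
            ‖v‖ ^ 2 ≤ (1 + 4 * t) ^ R *
          (‖v - E' z0 v‖ ^ 2 + 3 / t * (1 / (q : ℝ)) *
            ∑ r, En ρ (z' r) v)) := by
          exact Finset.sum_le_sum fun z' _ => ind_mono fun h3 h4 => h3 (htrans z0 z' h4)
        have h3 : Real.exp (-(Λ' * (t * q / 4))) ≤ Real.exp (-Λ') := by
          apply Real.exp_le_exp.2
          have h5 : Λ' ≤ Λ' * (t * q / 4) := le_mul_of_one_le_right (by linarith) hA
          linarith
        calc _ ≤ _ := h2
          _ ≤ _ := h1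
          _ ≤ _ := by gcongr
    calc _ ≤ ∑ z0 : Fin q → G, (ind (Real.exp (-Λ') * d < rtr (E' z0)) * Q +
          R * Real.exp (-Λ') * Q) := Finset.sum_le_sum fun z0 _ => hinner z0
      _ = (∑ z0 : Fin q → G, ind (Real.exp (-Λ') * d < rtr (E' z0))) * Q +
          (Fintype.card G : ℝ) ^ q * (R * Real.exp (-Λ') * Q) := by
        rw [Finset.sum_add_distrib, Finset.sum_mul, Finset.sum_const, Finset.card_univ,
          Fintype.card_fun, Fintype.card_fin, nsmul_eq_mul]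
        push_cast
        rfl
      _ ≤ ((Fintype.card G : ℝ) ^ q * Real.exp (-Λ')) * Q +
          (Fintype.card G : ℝ) ^ q * (R * Real.exp (-Λ') * Q) := by gcongr
      _ = _ := by
        rw [hQ]
        have h1 : (R + 1) * q = R * q + q := by ring
        rw [h1, pow_add]
        push_cast
        ring

end AMP3

open AMP3 in
/-- iterated amplification with threshold `1/(2R)` -/
theorem AMP3 (ρ : G →* (V ≃ₗᵢ[ℂ] V)) (hirr : Irr ρ ⊤) (T : Module.End ℂ V) (hT : T.IsSymmetric)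
    (hT1 : ∀ v, (⟪T v, v⟫_ℂ).re ≤ ‖v‖ ^ 2) (θ : ℝ) (hθ : 0 < θ) (hθ1 : θ < 1) (L : ℕ) (η : ℝ)
    (hη : rtr (T ^ (2 * L)) ≤ η * Module.finrank ℂ V) (q R : ℕ) (hR : 1 ≤ R) (hq : 8 * R ≤ q)
    (Λ : ℝ) (hΛ : 8 * (R : ℝ) ≤ Λ) (hηΛ : (1 / θ) ^ (2 * L) * η ≤ Real.exp (-Λ))
    (hd : (Module.finrank ℂ V : ℝ) < Real.exp (Λ * ((q : ℝ) / (8 * R)) ^ R)) :
    (Nat.card {z : Fin R → Fin q → G // ¬ ∀ v : V,
        ‖v‖ ^ 2 ≤ 8 / (1 - θ) * (‖v‖ ^ 2 - (⟪T v, v⟫_ℂ).re) +
          48 * (R : ℝ) / q * ∑ r, En ρ (z r) v} : ℝ) ≤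
      R * Real.exp (-(Λ * q / (8 * R))) * (Fintype.card G : ℝ) ^ (R * q) := by
  classical
  have hR1 : (1 : ℝ) ≤ R := by exact_mod_cast hR
  have hR0 : (0 : ℝ) < R := by linarith
  have hqR : 8 * (R : ℝ) ≤ q := by exact_mod_cast hq
  have hq0 : (0 : ℝ) < q := by linarith
  obtain ⟨E, hE, htr, hgap⟩ := SPEC T hT hT1 θ hθ hθ1
  have hτ : rtr E ≤ Real.exp (-Λ) * Module.finrank ℂ V := by
    have h1 := (htr L).trans hη
    have h2 : (1 / θ) ^ (2 * L) * (θ ^ (2 * L) * rtr E) = rtr E := by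
      rw [← mul_assoc, ← mul_pow, one_div, inv_mul_cancel₀ hθ.ne', one_pow, one_mul]
    calc rtr E = (1 / θ) ^ (2 * L) * (θ ^ (2 * L) * rtr E) := h2.symm
      _ ≤ (1 / θ) ^ (2 * L) * (η * Module.finrank ℂ V) := by gcongr
      _ = ((1 / θ) ^ (2 * L) * η) * Module.finrank ℂ V := by ring
      _ ≤ _ := by gcongr
  set t : ℝ := 1 / (2 * R) with ht
  have ht0 : 0 < t := by positivity
  have ht1 : t ≤ 1 / 2 := by
    rw [ht]
    apply one_div_le_one_div_of_le (by norm_num)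
    linarith
  have hA1 : t * q / 4 = q / (8 * R) := by
    rw [ht]
    field_simp
    ring
  have hA : 1 ≤ t * q / 4 := by
    rw [hA1, le_div_iff₀ (by positivity)]
    linarith
  have htΛ : 4 ≤ t * Λ := by
    rw [ht, one_div, inv_mul_eq_div, le_div_iff₀ (by positivity)]
    linarith
  have hd2 : (Module.finrank ℂ V : ℝ) < Real.exp (Λ * (t * q / 4) ^ R) := by
    rw [hA1]
    exact hd
  have hmain := ITER ρ hirr t ht0 ht1 q (by omega) hA R E hE Λ htΛ hτ hd2
  have hA2 : Λ * ((q : ℝ) / (8 * R)) = Λ * q / (8 * R) := by ring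
  rw [hA1, hA2] at hmain
  refine le_trans ?_ hmain
  have h8 : (1 + 4 * t) ^ R ≤ 8 := by
    have h1 : 1 + 4 * t ≤ Real.exp (2 / R) := by
      have := Real.add_one_le_exp (2 / (R : ℝ))
      have h2 : 4 * t = 2 / R := by
        rw [ht]
        field_simp
        norm_num
      linarith
    calc (1 + 4 * t) ^ R ≤ Real.exp (2 / R) ^ R := by gcongr
      _ = Real.exp 2 := by
        rw [← Real.exp_nat_mul]
        congr 1
        field_simp
      _ ≤ 8 := by
        have h3 : Real.exp 2 = Real.exp 1 ^ 2 := by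
          rw [← Real.exp_nat_mul]
          norm_num
        rw [h3]
        have h4 := Real.exp_one_lt_d9
        have h5 := Real.exp_pos 1
        nlinarith
  rw [AMP2.card_eq_sum, AMP2.card_eq_sum]
  refine Finset.sum_le_sum fun z _ => AMP2.ind_mono fun h3 h4 => h3 fun v => ?_
  have hv := h4 v
  set S := ∑ r, En ρ (z r) v with hS
  have hS0 : 0 ≤ S := Finset.sum_nonneg fun r _ => AMP1.En_nonneg ρ (z r) v
  have hθ2 : 0 < 1 - θ := by linarith
  have hg : ‖v - E v‖ ^ 2 ≤ (‖v‖ ^ 2 - (⟪T v, v⟫_ℂ).re) / (1 - θ) := by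
    rw [le_div_iff₀ hθ2]
    have := hgap v
    linarith
  calc ‖v‖ ^ 2 ≤ (1 + 4 * t) ^ R * (‖v - E v‖ ^ 2 + 3 / t * (1 / (q : ℝ)) * S) := hv
    _ ≤ 8 * ((‖v‖ ^ 2 - (⟪T v, v⟫_ℂ).re) / (1 - θ) + 3 / t * (1 / (q : ℝ)) * S) := by
      have h9 : 0 ≤ (‖v‖ ^ 2 - (⟪T v, v⟫_ℂ).re) / (1 - θ) := (by positivity : 0 ≤ ‖v - E v‖ ^ 2).trans hg
      gcongr
    _ = _ := by
      rw [ht]
      field_simp
      ring

end RC14
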